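import Pool.Agent.V11204.CubicFix

/-!
# Smoothness of fixed point sets of analytic nonexpansive maps (MP_8dfbdc_an, Q1: disproved)

On `ℝ³` with the maximum norm let `f (x, y, z) = (x, y, z - h (x, y, z) / 18)` with
`h = φ (z - x) + φ (z - y) + 7 φ z`, `φ t = t - sin t`. It is real analytic and nonexpansive. The
fixed point set `h = 0` is asymptotic at the origin to the cone `(z - x)³ + (z - y)³ + 7 z³ = 0`,
which contains the three independent directions `(3, 0, 1)`, `(0, 3, 1)`, `(7, 8, 3)`. If it were a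
`C¹` submanifold near `0`, it would be a neighbourhood of `0`; but it contains no point
`(0, 0, z)` with `z ≠ 0`. (The idea of the example is due to helper99.)
-/

set_option autoImplicit false

open Filter Set Topology

namespace Pool.Agent.Results.MP_8dfbdc_an.NotSmooth

open Pool.Agent.V11204.CubicFix

/-- The norm of `X` is polyhedral: it is the maximum of the absolute values of finitely many linear
functionals. -/
def IsPolyhedralNorm (X : Type) [NormedAddCommGroup X] [NormedSpace ℝ X] : Prop :=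
  ∃ (m : ℕ) (φ : Fin m → X →ₗ[ℝ] ℝ), ∀ x : X, IsGreatest (range fun i => |φ i x|) ‖x‖

/-- Near `p`, the set `M ⊆ ℝⁿ` is a `C¹` embedded submanifold: there are an open neighbourhood `U` of
`p` (the source of `ψ`), a number `k` and a `C¹` diffeomorphism `ψ` of `U` onto an open set
with `ψ (U ∩ M) = ψ (U) ∩ (ℝᵏ × {0})`. -/
def IsC1SubmanifoldAt {n : ℕ} (M : Set (Fin n → ℝ)) (p : Fin n → ℝ) : Prop :=
  ∃ (k : ℕ) (ψ : OpenPartialHomeomorph (Fin n → ℝ) (Fin n → ℝ)), p ∈ ψ.source ∧
    ContDiffOn ℝ 1 ψ ψ.source ∧ ContDiffOn ℝ 1 ψ.symm ψ.target ∧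
    ψ '' (ψ.source ∩ M) = ψ.target ∩ {y | ∀ i : Fin n, k ≤ (i : ℕ) → y i = 0}

/-- `ℝ³` with the maximum norm is a polyhedral normed space, and it has a nonexpansive real analytic
self-map `f` with `f 0 = 0` such that `Fix f` is not a `C¹` embedded submanifold near `0`. -/
theorem result :
    IsPolyhedralNorm (Fin 3 → ℝ) ∧
    ∃ f : (Fin 3 → ℝ) → (Fin 3 → ℝ), LipschitzWith 1 f ∧ AnalyticOnNhd ℝ f univ ∧
      (0 : Fin 3 → ℝ) ∈ Function.fixedPoints f ∧
      ¬ IsC1SubmanifoldAt (Function.fixedPoints f) 0 := by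
  refine ⟨⟨3, fun i => LinearMap.proj i, fun x => IsGreatest.pi_norm x⟩,
    f, nonexpansive, analytic, zero_mem, ?_⟩
  rintro ⟨k, ψ, h0, hψ, hψ', him⟩
  have hd : DifferentiableAt ℝ ψ 0 :=
    (hψ.contDiffAt (ψ.open_source.mem_nhds h0)).differentiableAt one_ne_zero
  have h0t : ψ 0 ∈ ψ.target := ψ.map_source h0
  have hd' : DifferentiableAt ℝ ψ.symm (ψ 0) :=
    (hψ'.contDiffAt (ψ.open_target.mem_nhds h0t)).differentiableAt one_ne_zero
  have hL := hd.hasFDerivAt
  have hL' := hd'.hasFDerivAt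
  set L := fderiv ℝ ψ 0 with hLdef
  set L' := fderiv ℝ ψ.symm (ψ 0) with hL'def
  -- `L ∘ L' = id`
  have hcomp : L.comp L' = ContinuousLinearMap.id ℝ (Fin 3 → ℝ) := by
    have e1 : HasFDerivAt (ψ ∘ ψ.symm) (L.comp L') (ψ 0) := by
      refine HasFDerivAt.comp _ ?_ hL'
      rw [ψ.left_inv h0]
      exact hL
    have e2 : HasFDerivAt (ψ ∘ ψ.symm) (ContinuousLinearMap.id ℝ (Fin 3 → ℝ)) (ψ 0) := by
      refine (hasFDerivAt_id _).congr_of_eventuallyEq ?_
      filter_upwards [ψ.open_target.mem_nhds h0t] with y hy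
      exact ψ.right_inv hy
    exact e1.unique e2
  -- no index is `≥ k`
  have hk : ∀ i : Fin 3, ¬ k ≤ (i : ℕ) := by
    intro i hi
    have e1 : HasFDerivWithinAt (fun x => ψ x i)
        ((ContinuousLinearMap.proj (R := ℝ) (φ := fun _ : Fin 3 => ℝ) i).comp L)
        (Function.fixedPoints f) 0 := by
      have := ((ContinuousLinearMap.proj (R := ℝ) (φ := fun _ : Fin 3 => ℝ) i).hasFDerivAt
        (x := ψ 0)).comp 0 hL
      exact this.hasFDerivWithinAt
    have hz : ∀ x ∈ ψ.source ∩ Function.fixedPoints f, ψ x i = 0 := by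
      intro x hx
      have : ψ x ∈ ψ.target ∩ {y | ∀ i : Fin 3, k ≤ (i : ℕ) → y i = 0} := by
        rw [← him]
        exact ⟨x, hx, rfl⟩
      exact this.2 i hi
    have e2 : HasFDerivWithinAt (fun x => ψ x i) (0 : (Fin 3 → ℝ) →L[ℝ] ℝ)
        (Function.fixedPoints f) 0 := by
      refine (hasFDerivWithinAt_const (0 : ℝ) 0 _).congr_of_eventuallyEq ?_ ?_
      · filter_upwards [mem_nhdsWithin_of_mem_nhds (ψ.open_source.mem_nhds h0),
          self_mem_nhdsWithin] with x hx1 hx2
        exact hz x ⟨hx1, hx2⟩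
      · exact hz 0 ⟨h0, zero_mem⟩
    have e3 := eq_of_cone (e1.unique_on e2)
    have e4 := DFunLike.congr_fun e3 (L' (Pi.single i 1))
    have e5 : L (L' (Pi.single i 1)) = Pi.single i 1 := by
      have := DFunLike.congr_fun hcomp (Pi.single i 1)
      simpa using this
    simp [e5] at e4
  -- hence `Fix f` is a neighbourhood of `0`
  have hsub : ψ.source ⊆ Function.fixedPoints f := by
    intro x hx
    have : ψ x ∈ ψ '' (ψ.source ∩ Function.fixedPoints f) := by
      rw [him]
      exact ⟨ψ.map_source hx, fun i hi => absurd hi (hk i)⟩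
    obtain ⟨x', hx', he⟩ := this
    have := ψ.injOn hx'.1 hx he
    rw [← this]
    exact hx'.2
  have h4 : Tendsto (fun s : ℝ => (![0, 0, s] : Fin 3 → ℝ)) (𝓝 0) (𝓝 0) := by
    rw [tendsto_pi_nhds]
    intro i
    fin_cases i
    · exact tendsto_const_nhds
    · exact tendsto_const_nhds
    · exact tendsto_id
  have h5 := (h4.mono_left (nhdsWithin_le_nhds (s := Ioi 0))).eventually
    (ψ.open_source.mem_nhds h0)
  obtain ⟨s, hs, hs0⟩ := (h5.and self_mem_nhdsWithin).exists
  have hs0' : (0 : ℝ) < s := hs0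
  have hb := fix_bound ((mem_fix _).1 (hsub hs))
  simp only [Matrix.cons_val_zero, Matrix.cons_val_one, Matrix.cons_val, abs_zero, max_self] at hb
  exact hs0'.ne' (abs_nonpos_iff.1 hb)

end Pool.Agent.Results.MP_8dfbdc_an.NotSmooth
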